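import Mathlib
import Pool.Agent.V114.CharBridge
import Pool.Agent.V114.CharExist
import Pool.Agent.V114.AltChar

/-!
# The character formula for free alternative algebras fails

The conjectural formula predicts that the multilinear part of the free alternative algebra on nine
generators has dimension `336364`, but it has dimension at least `9! = 362880`.
-/

namespace Pool.Agent.Results.MP_9e3efc_al.CharacterFormulaFails

open Finset

/-! ### The free alternative algebra on `k^d` and its weight spaces -/

section Alt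

variable (k : Type*) [Field k] (d : ℕ)

/-- The free nonassociative algebra on `d` generators (no unit). -/
abbrev Mag := FreeNonUnitalNonAssocAlgebra k (Fin d)

/-- The ideal of the free nonassociative algebra generated by all `(pp)q - p(pq)` and
`(qp)p - q(pp)`: the smallest subspace that contains them and is stable under all left and right
multiplications. -/
noncomputable def altIdeal : Submodule k (Mag k d) :=
  sInf {I | (∀ p q : Mag k d, (p * p) * q - p * (p * q) ∈ I ∧ (q * p) * p - q * (p * p) ∈ I) ∧
    ∀ u ∈ I, ∀ v : Mag k d, u * v ∈ I ∧ v * u ∈ I}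

/-- The free (non-unital) alternative algebra `Alt(V)` on `V = k^d`. -/
abbrev Alt := Mag k d ⧸ altIdeal k d

variable {k d}

theorem altIdeal_mul {u : Mag k d} (hu : u ∈ altIdeal k d) (v : Mag k d) :
    u * v ∈ altIdeal k d ∧ v * u ∈ altIdeal k d := by
  unfold altIdeal at hu ⊢
  rw [Submodule.mem_sInf] at hu
  constructor <;> rw [Submodule.mem_sInf] <;> intro I hI
  · exact (hI.2 u (hu I hI) v).1
  · exact (hI.2 u (hu I hI) v).2

/-- The multiplication of the free alternative algebra. -/
noncomputable instance : Mul (Alt k d) where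
  mul := Quotient.map₂ (fun u v : Mag k d => u * v) (by
    intro u u' hu v v' hv
    have hu' := (Submodule.quotientRel_def _).1 hu
    have hv' := (Submodule.quotientRel_def _).1 hv
    refine (Submodule.quotientRel_def _).2 ?_
    have h : u * v - u' * v' = (u - u') * v + u' * (v - v') := by
      rw [sub_mul, mul_sub]; abel
    rw [h]
    exact Submodule.add_mem _ (altIdeal_mul hu' v).1 (altIdeal_mul hv' u').2)

theorem mk_mul (u v : Mag k d) : (altIdeal k d).mkQ (u * v) =
    (altIdeal k d).mkQ u * (altIdeal k d).mkQ v := rfl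

/-- The value in `Alt(V)` of a nonassociative word in the standard basis of `V`. -/
noncomputable def word : FreeMagma (Fin d) → Alt k d
  | .of i => (altIdeal k d).mkQ (FreeNonUnitalNonAssocAlgebra.of k i)
  | .mul u v => word u * word v

/-- The multidegree of a nonassociative word. -/
noncomputable def deg : FreeMagma (Fin d) → (Fin d →₀ ℕ)
  | .of i => Finsupp.single i 1
  | .mul u v => deg u + deg v

/-- The exterior product of two elements, as an element of `⋀²`. -/
noncomputable def wedge (x y : Alt k d) : ⋀[k]^2 (Alt k d) := exteriorPower.ιMulti k 2 ![x, y]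

variable (k d) in
/-- The subspace of `⋀² Alt(V)` spanned by all `ab ∧ c + bc ∧ a + ca ∧ b`. -/
noncomputable def relB : Submodule k (⋀[k]^2 (Alt k d)) :=
  Submodule.span k {x | ∃ a b c : Alt k d, x = wedge (a * b) c + wedge (b * c) a + wedge (c * a) b}

variable (k) in
/-- The dimension of the weight space of `Alt(V)` of weight `μ` under the diagonal torus of
`GL(V)`. -/
noncomputable def chAlt (μ : Fin d →₀ ℕ) : ℕ :=
  Module.finrank k (Submodule.span k {x : Alt k d | ∃ w, deg w = μ ∧ x = word w})

variable (k) in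
/-- The dimension of the weight space of `B(Alt(V))` of weight `μ` under the diagonal torus of
`GL(V)`. -/
noncomputable def chB (μ : Fin d →₀ ℕ) : ℕ :=
  Module.finrank k (Submodule.span k {x : (⋀[k]^2 (Alt k d)) ⧸ relB k d |
    ∃ u v, deg u + deg v = μ ∧ x = (relB k d).mkQ (wedge (word u) (word v))})

end Alt

/-! ### The pair `a(V)`, `b(V)` -/

section Pair

/-- The character ring of the maximal torus of `PSL₃`: the group ring of the root lattice, with
`(m, n)` standing for `m α₁ + n α₂`. -/
abbrev KT := AddMonoidAlgebra ℤ (ℤ × ℤ)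

/-- The formal exponential `e^w`. -/
noncomputable def ex (w : ℤ × ℤ) : KT := AddMonoidAlgebra.single w 1

/-- The weights of the adjoint module of `PSL₃`, with multiplicities. -/
def adjWeights : List (ℤ × ℤ) :=
  [(0, 0), (0, 0), (1, 0), (0, 1), (1, 1), (-1, 0), (0, -1), (-1, -1)]

/-- The multiplicity of the irreducible module of highest weight `w` in a virtual character `f` of
`PSL₃`, computed with Weyl's character formula: the coefficient of `e^w` in
`f * (1 - e^(-α₁)) * (1 - e^(-α₂)) * (1 - e^(-α₁-α₂))`. -/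
noncomputable def mult (w : ℤ × ℤ) (f : KT) : ℤ :=
  (f * ((1 - ex (-1, 0)) * (1 - ex (0, -1)) * (1 - ex (-1, -1)))).coeff w

variable {d : ℕ}

/-- Integral powers of a power series with constant coefficient `1`. -/
noncomputable def zp (f : MvPowerSeries (Fin d) KT) (n : ℤ) : MvPowerSeries (Fin d) KT :=
  if 0 ≤ n then f ^ n.toNat else (MvPowerSeries.invOfUnit f 1) ^ (-n).toNat

/-- The coefficient at `x^ν` of the formal character of `λ(a[L(α₁+α₂)] + b[L(0)])`, where `a`, `b`
are the virtual polynomial `GL_d`-modules with weight multiplicities `a μ`, `b μ`. As `λ` is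
multiplicative and `λ([U]) = 1 - [U]` for `U` of dimension one, this formal character is
`∏_{μ ≠ 0} ((1 - x^μ)^(b μ) * ∏_w (1 - x^μ e^w)^(a μ))`, where `w` runs over the weights of the
adjoint module; only the factors with `μ ≤ ν` contribute to the coefficient at `x^ν`. -/
noncomputable def Phi (a b : (Fin d →₀ ℕ) → ℤ) (ν : Fin d →₀ ℕ) : KT :=
  MvPowerSeries.coeff ν (∏ μ ∈ (Finset.Iic ν).erase 0,
    (zp (1 - MvPowerSeries.monomial μ 1) (b μ) *
      (adjWeights.map fun w => zp (1 - MvPowerSeries.monomial μ (ex w)) (a μ)).prod))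

/-- `a` and `b` are the weight multiplicities of a pair of classes in the augmentation ideal with
`[Φ : L(0)] = [k]` and `[Φ : L(α₁+α₂)] = -[V]`. -/
structure IsPair (a b : (Fin d →₀ ℕ) → ℤ) : Prop where
  a_zero : a 0 = 0
  b_zero : b 0 = 0
  triv : ∀ ν, mult (0, 0) (Phi a b ν) = if ν = 0 then 1 else 0
  adj : ∀ ν, mult (1, 1) (Phi a b ν) = if ∃ i, ν = Finsupp.single i 1 then -1 else 0

end Pair

/-! ### The lower bound -/

section Lower

variable {k : Type*} [Field k] {d : ℕ}

theorem finite_length (n : ℕ) : {w : FreeMagma (Fin d) | w.length = n}.Finite := by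
  induction n using Nat.strong_induction_on with
  | _ n ih =>
  have hsub : {w : FreeMagma (Fin d) | w.length = n} ⊆
      (Set.range fun i : Fin d => FreeMagma.of i) ∪
      ⋃ i ∈ Finset.range n, ⋃ j ∈ Finset.range n,
        Set.image2 (fun u v : FreeMagma (Fin d) => FreeMagma.mul u v) {w | w.length = i}
          {w | w.length = j} := by
    intro w hw
    rw [Set.mem_ofPred_eq] at hw
    cases w with
    | of i => exact Or.inl ⟨i, rfl⟩
    | mul u v =>
      right
      have hu : 0 < u.length := FreeMagma.length_pos u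
      have hv : 0 < v.length := FreeMagma.length_pos v
      have huv : u.length + v.length = n := hw
      simp only [Set.mem_iUnion, Finset.mem_range]
      exact ⟨u.length, by omega, v.length, by omega, ⟨u, rfl, v, rfl, rfl⟩⟩
  refine Set.Finite.subset ?_ hsub
  refine Set.Finite.union (Set.finite_range _) ?_
  refine Set.Finite.biUnion (Finset.finite_toSet _) fun i hi => ?_
  refine Set.Finite.biUnion (Finset.finite_toSet _) fun j hj => ?_
  rw [Finset.mem_coe, Finset.mem_range] at hi hj
  exact Set.Finite.image2 _ (ih i hi) (ih j hj)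

theorem deg_length (w : FreeMagma (Fin d)) : (deg w).sum (fun _ n => n) = w.length := by
  induction w with
  | ih1 i =>
    show (Finsupp.single i 1).sum _ = 1
    simp
  | ih2 u v hu hv =>
    show (deg u + deg v).sum _ = u.length + v.length
    rw [Finsupp.sum_add_index' (fun _ => rfl) (fun _ _ _ => rfl), hu, hv]

theorem finite_deg (μ : Fin d →₀ ℕ) : {w : FreeMagma (Fin d) | deg w = μ}.Finite := by
  refine Set.Finite.subset (finite_length (μ.sum fun _ n => n)) ?_
  intro w hw
  rw [Set.mem_ofPred_eq] at hw ⊢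
  rw [← deg_length, hw]

/-- The map to the free associative algebra. -/
noncomputable def toAss0 : Mag k d →ₙₐ[k] MonoidAlgebra k (FreeMonoid (Fin d)) :=
  FreeNonUnitalNonAssocAlgebra.lift k fun i => MonoidAlgebra.single (FreeMonoid.of i) 1

noncomputable def toAss1 : Mag k d →ₗ[k] MonoidAlgebra k (FreeMonoid (Fin d)) where
  toFun := toAss0
  map_add' := map_add toAss0
  map_smul' := map_smul toAss0

theorem le_ker : altIdeal k d ≤ LinearMap.ker (toAss1 (k := k) (d := d)) := by
  apply sInf_le
  refine ⟨fun p q => ⟨?_, ?_⟩, fun u hu v => ⟨?_, ?_⟩⟩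
  · rw [LinearMap.mem_ker]
    show toAss0 (p * p * q - p * (p * q)) = 0
    rw [map_sub, map_mul, map_mul, map_mul, map_mul, mul_assoc, sub_self]
  · rw [LinearMap.mem_ker]
    show toAss0 (q * p * p - q * (p * p)) = 0
    rw [map_sub, map_mul, map_mul, map_mul, map_mul, mul_assoc, sub_self]
  · rw [LinearMap.mem_ker] at hu ⊢
    have hu' : toAss0 u = 0 := hu
    show toAss0 (u * v) = 0
    rw [map_mul, hu', zero_mul]
  · rw [LinearMap.mem_ker] at hu ⊢
    have hu' : toAss0 u = 0 := hu
    show toAss0 (v * u) = 0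
    rw [map_mul, hu', mul_zero]

noncomputable def toAss : Alt k d →ₗ[k] MonoidAlgebra k (FreeMonoid (Fin d)) :=
  (altIdeal k d).liftQ toAss1 le_ker

theorem toAss_mul (x y : Alt k d) : toAss (x * y) = toAss x * toAss y := by
  obtain ⟨u, rfl⟩ := (altIdeal k d).mkQ_surjective x
  obtain ⟨v, rfl⟩ := (altIdeal k d).mkQ_surjective y
  rw [← mk_mul]
  show toAss0 (u * v) = toAss0 u * toAss0 v
  rw [map_mul]

theorem exists_word (x : Fin d) (L : List (Fin d)) : ∃ w : FreeMagma (Fin d),
    deg w = ((x :: L).map fun i => Finsupp.single i 1).sum ∧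
    toAss (word (k := k) w) = MonoidAlgebra.single (FreeMonoid.ofList (x :: L)) 1 := by
  induction L generalizing x with
  | nil =>
    refine ⟨.of x, by simp [deg], ?_⟩
    show toAss0 (FreeNonUnitalNonAssocAlgebra.of k x) = _
    unfold toAss0
    rw [FreeNonUnitalNonAssocAlgebra.lift_of_apply]
    rfl
  | cons y L ih =>
    obtain ⟨w, hw1, hw2⟩ := ih y
    refine ⟨.mul (.of x) w, ?_, ?_⟩
    · rw [List.map_cons, List.sum_cons, ← hw1]; rfl
    · show toAss (word (.of x) * word w) = _
      rw [toAss_mul, hw2]
      have : toAss (word (k := k) (.of x)) = MonoidAlgebra.single (FreeMonoid.of x) 1 := by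
        show toAss0 (FreeNonUnitalNonAssocAlgebra.of k x) = _
        unfold toAss0
        rw [FreeNonUnitalNonAssocAlgebra.lift_of_apply]
      rw [this, MonoidAlgebra.single_mul_single, mul_one]
      rfl

theorem lower (S : Finset (Fin d)) (hS : S ≠ ∅) :
    (S.card).factorial ≤ chAlt k (Pool.Agent.V114.Sqf.ind S) := by
  classical
  set P := S.toList.permutations.toFinset with hP
  have hcard : P.card = (S.card).factorial := by
    rw [hP, List.toFinset_card_of_nodup (List.nodup_permutations _ S.nodup_toList),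
      List.length_permutations, Finset.length_toList]
  set W := Submodule.span k {x : Alt k d | ∃ w, deg w = Pool.Agent.V114.Sqf.ind S ∧ x = word w}
    with hW
  have hfin : Module.Finite k W := by
    have h1 : {x : Alt k d | ∃ w, deg w = Pool.Agent.V114.Sqf.ind S ∧ x = word w} =
        word '' {w | deg w = Pool.Agent.V114.Sqf.ind S} := by
      ext x
      simp only [Set.mem_ofPred_eq, Set.mem_image]
      exact ⟨fun ⟨w, h1, h2⟩ => ⟨w, h1, h2.symm⟩, fun ⟨w, h1, h2⟩ => ⟨w, h1, h2.symm⟩⟩
    rw [hW, h1]
    exact FiniteDimensional.span_of_finite k ((finite_deg _).image _)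
  have hex : ∀ L : P, ∃ x : W, toAss (x : Alt k d) =
      MonoidAlgebra.single (FreeMonoid.ofList (L : List (Fin d))) 1 := by
    intro L
    have hL : (L : List (Fin d)).Perm S.toList :=
      List.mem_permutations.1 (List.mem_toFinset.1 L.2)
    have hsum : ((L : List (Fin d)).map fun i => Finsupp.single i 1).sum =
        Pool.Agent.V114.Sqf.ind S := by
      rw [(hL.map _).sum_eq, Pool.Agent.V114.Sqf.ind, Finset.sum_map_toList]
    rcases hLe : (L : List (Fin d)) with _ | ⟨x, l⟩
    · exfalso
      rw [hLe] at hL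
      apply hS
      have := hL.length_eq
      rw [Finset.length_toList] at this
      exact Finset.card_eq_zero.1 this.symm
    · obtain ⟨w, hw1, hw2⟩ := exists_word (k := k) x l
      rw [← hLe, hsum] at hw1
      exact ⟨⟨word w, Submodule.subset_span ⟨w, hw1, rfl⟩⟩, hw2⟩
  choose f hf using hex
  have hlin : LinearIndependent k f := by
    let g : W →ₗ[k] (FreeMonoid (Fin d) →₀ k) :=
      { toFun := fun x => (toAss (x : Alt k d)).coeff
        map_add' := fun x y => by simp
        map_smul' := fun c x => by simp }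
    apply LinearIndependent.of_comp g
    have h2 : (g ∘ f) = (fun i : FreeMonoid (Fin d) => Finsupp.single i (1 : k)) ∘
        (fun L : P => FreeMonoid.ofList (L : List (Fin d))) := by
      funext L
      show (toAss (f L : Alt k d)).coeff = _
      rw [hf L]
      rfl
    rw [h2]
    apply (Finsupp.linearIndependent_single_one k (FreeMonoid (Fin d))).comp
    intro L L' h
    exact Subtype.ext (FreeMonoid.ofList.injective h)
  have := hlin.fintype_card_le_finrank
  rw [Fintype.card_coe, hcard] at this
  exact this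

end Lower

/-! ### The prediction -/

section Prediction

open Pool.Agent.V114.Sqf

variable {d : ℕ}

theorem const_fac (T : Finset (Fin d)) (hT : T ≠ ∅) (e : KT) :
    MvPowerSeries.constantCoeff (1 - MvPowerSeries.monomial (ind T) e :
      MvPowerSeries (Fin d) KT) = 1 := by
  have h := Sim.fac (T := T) e ∅
  unfold kap at h
  rw [ind_empty] at h
  rw [← MvPowerSeries.coeff_zero_eq_constantCoeff_apply, h, if_pos rfl, if_neg (Ne.symm hT)]
  simp

theorem sim_zp (T : Finset (Fin d)) (hT : T ≠ ∅) (e : KT) (n : ℤ) :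
    Sim T (n * e) (zp (1 - MvPowerSeries.monomial (ind T) e) n) := by
  unfold zp
  split_ifs with h
  · have h1 := Sim.pow hT (Sim.fac (T := T) e) n.toNat
    have h2 : ((n.toNat : ℕ) : KT) = (n : KT) := by
      rw [← Int.cast_natCast, Int.toNat_of_nonneg h]
    rw [h2] at h1
    exact h1
  · have hinv : (1 - MvPowerSeries.monomial (ind T) e : MvPowerSeries (Fin d) KT) *
        MvPowerSeries.invOfUnit (1 - MvPowerSeries.monomial (ind T) e) 1 = 1 :=
      MvPowerSeries.mul_invOfUnit _ 1 (by rw [const_fac T hT e]; rfl)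
    have h0 := Pool.Agent.V114.CharBridge.sim_inv hT (Sim.fac (T := T) e) hinv
    have h1 := Sim.pow hT h0 (-n).toNat
    have h2 : (((-n).toNat : ℕ) : KT) = ((-n : ℤ) : KT) := by
      rw [← Int.cast_natCast, Int.toNat_of_nonneg (by omega)]
    rw [h2] at h1
    have h3 : ((-n : ℤ) : KT) * -e = (n : KT) * e := by push_cast; ring
    rw [h3] at h1
    exact h1

/-- The list of the exponentials of the adjoint weights. -/
noncomputable def ws : List KT := adjWeights.map ex

theorem ws_sum : ws.sum = Pool.Agent.V114.AltChar.ev Pool.Agent.V114.AltChar.rl := by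
  unfold ws adjWeights ex Pool.Agent.V114.AltChar.ev Pool.Agent.V114.AltChar.rl
  simp only [List.map_cons, List.map_nil, List.sum_cons, List.sum_nil]
  have : (AddMonoidAlgebra.single ((0, 0) : ℤ × ℤ) (2 : ℤ)) =
      AddMonoidAlgebra.single (0, 0) 1 + AddMonoidAlgebra.single (0, 0) 1 := by
    rw [← AddMonoidAlgebra.single_add]; norm_num
  rw [this]
  abel

theorem denom : (1 - ex (-1, 0)) * (1 - ex (0, -1)) * (1 - ex (-1, -1)) =
    Pool.Agent.V114.AltChar.ev Pool.Agent.V114.AltChar.dl := by
  unfold ex Pool.Agent.V114.AltChar.ev Pool.Agent.V114.AltChar.dl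
  simp only [List.map_cons, List.map_nil, List.sum_cons, List.sum_nil]
  have h1 : (1 : KT) = AddMonoidAlgebra.single (0, 0) 1 := rfl
  have hneg : ∀ w : ℤ × ℤ, (AddMonoidAlgebra.single w (-1 : ℤ) : KT) =
      - AddMonoidAlgebra.single w 1 := by
    intro w; exact AddMonoidAlgebra.single_neg _ _
  simp only [hneg, sub_mul, mul_sub, one_mul, mul_one, AddMonoidAlgebra.single_mul_single,
    Prod.mk_add_mk]
  norm_num
  rw [h1]
  abel

/-- The multiplicity as an additive map. -/
noncomputable def multHom (w : ℤ × ℤ) : KT →+ ℤ where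
  toFun := mult w
  map_zero' := by simp [mult]
  map_add' := fun f g => by simp [mult, add_mul]

theorem mult_eq (w : ℤ × ℤ) (j : ℕ) : multHom w (ws.sum ^ j) =
    (Pool.Agent.V114.AltChar.ev Pool.Agent.V114.AltChar.rl ^ j *
      Pool.Agent.V114.AltChar.ev Pool.Agent.V114.AltChar.dl).coeff w := by
  show mult w (ws.sum ^ j) = _
  unfold mult
  rw [ws_sum, denom]

theorem multHom_zero (j : ℕ) (hj : j ∈ range 10) :
    multHom (0, 0) (ws.sum ^ j) = Pool.Agent.V114.AltNum.TC j := by
  rw [mult_eq, Pool.Agent.V114.AltChar.value]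
  exact Pool.Agent.V114.AltChar.val0 j hj

theorem multHom_one (j : ℕ) (hj : j ∈ range 10) :
    multHom (1, 1) (ws.sum ^ j) = Pool.Agent.V114.AltNum.TD j := by
  rw [mult_eq, Pool.Agent.V114.AltChar.value]
  exact Pool.Agent.V114.AltChar.val1 j hj

theorem hc0 : multHom (0, 0) 1 = 1 := by
  have := multHom_zero 0 (by simp)
  rw [pow_zero] at this; rw [this]; decide +kernel

theorem hc1 : multHom (0, 0) ws.sum = 0 := by
  have := multHom_zero 1 (by simp)
  rw [pow_one] at this; rw [this]; decide +kernel

theorem hd0 : multHom (1, 1) 1 = 0 := by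
  have := multHom_one 0 (by simp)
  rw [pow_zero] at this; rw [this]; decide +kernel

theorem hd1 : multHom (1, 1) ws.sum = 1 := by
  have := multHom_one 1 (by simp)
  rw [pow_one] at this; rw [this]; decide +kernel

theorem phi_ws (a b : (Fin d →₀ ℕ) → ℤ) (ν : Fin d →₀ ℕ) :
    Phi a b ν = MvPowerSeries.coeff ν (∏ μ ∈ (Finset.Iic ν).erase 0,
      (zp (1 - MvPowerSeries.monomial μ 1) (b μ) *
        (ws.map fun e => zp (1 - MvPowerSeries.monomial μ e) (a μ)).prod)) := by
  unfold Phi ws
  simp only [List.map_map]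
  rfl

theorem prediction (a b : (Fin d →₀ ℕ) → ℤ) (h : IsPair a b) (S : Finset (Fin d))
    (hS : S.card = 9) : a (ind S) = 336364 := by
  have hSne : S ≠ ∅ := by rintro rfl; simp at hS
  have hind : ∀ T : Finset (Fin d), (∃ i, ind T = Finsupp.single i 1) ↔ T.card = 1 := by
    intro T
    rw [Finset.card_eq_one]
    constructor
    · rintro ⟨i, hi⟩
      refine ⟨i, ind_inj.1 ?_⟩
      rw [hi]; simp [ind]
    · rintro ⟨i, rfl⟩
      exact ⟨i, by simp [ind]⟩
  have key := Pool.Agent.V114.CharBridge.bridge zp sim_zp ws a b (multHom (0, 0)) (multHom (1, 1))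
    hc0 hc1 hd0 hd1
    (by
      intro T hT
      have := h.triv (ind T)
      rw [if_neg (fun hh => hT (ind_eq_zero.1 hh)), phi_ws] at this
      exact this)
    (by
      intro T hT
      have := h.adj (ind T)
      rw [phi_ws] at this
      by_cases hT1 : T.card = 1
      · rw [if_pos ((hind T).2 hT1)] at this
        rw [if_pos hT1]; exact this
      · rw [if_neg (fun hh => hT1 ((hind T).1 hh))] at this
        rw [if_neg hT1]; exact this) S hSne
  rw [key.1, hS]
  exact Pool.Agent.V114.AltNum.An_nine _ _ multHom_zero multHom_one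

theorem near_zp (ν : Fin d →₀ ℕ) (hν : ν ≠ 0) (e : KT) (n : ℤ) :
    Pool.Agent.V114.CharExist.Near ν (n * e) (zp (1 - MvPowerSeries.monomial ν e) n) := by
  unfold zp
  split_ifs with h
  · have h1 := Pool.Agent.V114.CharExist.Near.pow hν
      (Pool.Agent.V114.CharExist.Near.fac (ν := ν) e) n.toNat
    have h2 : ((n.toNat : ℕ) : KT) = (n : KT) := by
      rw [← Int.cast_natCast, Int.toNat_of_nonneg h]
    rw [h2] at h1
    exact h1
  · have hinv : (1 - MvPowerSeries.monomial ν e : MvPowerSeries (Fin d) KT) *
        MvPowerSeries.invOfUnit (1 - MvPowerSeries.monomial ν e) 1 = 1 :=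
      MvPowerSeries.mul_invOfUnit _ 1 (by
        rw [← MvPowerSeries.coeff_zero_eq_constantCoeff_apply,
          Pool.Agent.V114.CharExist.Near.fac (ν := ν) e 0 zero_le, if_pos rfl,
          if_neg (Ne.symm hν)]
        simp)
    have h0 := Pool.Agent.V114.CharExist.Near.inv hν
      (Pool.Agent.V114.CharExist.Near.fac (ν := ν) e) hinv
    have h1 := Pool.Agent.V114.CharExist.Near.pow hν h0 (-n).toNat
    have h2 : (((-n).toNat : ℕ) : KT) = ((-n : ℤ) : KT) := by
      rw [← Int.cast_natCast, Int.toNat_of_nonneg (by omega)]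
    rw [h2] at h1
    have h3 : ((-n : ℤ) : KT) * -e = (n : KT) * e := by push_cast; ring
    rw [h3] at h1
    exact h1

theorem phi_zero (a b : (Fin d →₀ ℕ) → ℤ) : Phi a b 0 = 1 := by
  unfold Phi
  have : (Finset.Iic (0 : Fin d →₀ ℕ)).erase 0 = ∅ := by
    ext μ
    simp
  rw [this, Finset.prod_empty, MvPowerSeries.coeff_zero_one]

theorem pair_exists : ∃ a b : (Fin d →₀ ℕ) → ℤ, IsPair a b := by
  classical
  obtain ⟨a, b, ha, hb, h⟩ := Pool.Agent.V114.CharExist.exists_pair (σ := Fin d) zp ws near_zp
    (multHom (0, 0)) (multHom (1, 1)) hc0 hc1 hd0 hd1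
    (fun ν => if ∃ i, ν = Finsupp.single i 1 then -1 else 0)
  refine ⟨a, b, ha, hb, ?_, ?_⟩
  · intro ν
    by_cases hν : ν = 0
    · rw [hν, if_pos rfl, phi_zero]; exact hc0
    · rw [if_neg hν, phi_ws]
      exact (h ν hν).1
  · intro ν
    by_cases hν : ν = 0
    · have h0 : ¬ ∃ i, ν = Finsupp.single i 1 := by
        rintro ⟨i, hi⟩
        rw [hν] at hi
        have := Finsupp.single_eq_zero.1 hi.symm
        exact one_ne_zero this
      rw [if_neg h0, hν, phi_zero]
      exact hd0
    · rw [phi_ws]
      exact (h ν hν).2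

theorem pair_unique (a b a' b' : (Fin d →₀ ℕ) → ℤ) (h : IsPair a b) (h' : IsPair a' b') :
    a = a' ∧ b = b' := by
  refine Pool.Agent.V114.CharExist.unique_pair zp ws near_zp (multHom (0, 0)) (multHom (1, 1))
    hc0 hc1 hd0 hd1 a b a' b' h.a_zero h.b_zero h'.a_zero h'.b_zero ?_ ?_
  · intro ν _
    have e1 := h.triv ν
    have e2 := h'.triv ν
    rw [phi_ws] at e1 e2
    exact e1.trans e2.symm
  · intro ν _
    have e1 := h.adj ν
    have e2 := h'.adj ν
    rw [phi_ws] at e1 e2
    exact e1.trans e2.symm

end Prediction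

/-- For every field `k` of characteristic zero and every `V = k^d` with `d ≥ 9`: the pair
`(a(V), b(V))` exists and is unique, and `a(V)` is not the class of the free alternative algebra
`Alt(V)`: at the weight `μ = (1,...,1,0,...,0)` (nine ones) the multiplicity of `a(V)` is `336364`
while `Alt(V)` has dimension at least `9! = 362880`. -/
theorem result (k : Type*) [Field k] [CharZero k] (d : ℕ) (hd : 9 ≤ d) :
    ∃ a b : (Fin d →₀ ℕ) → ℤ, IsPair a b ∧
      (∀ a' b' : (Fin d →₀ ℕ) → ℤ, IsPair a' b' → a' = a ∧ b' = b) ∧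
      ∃ μ, a μ = 336364 ∧ 362880 ≤ chAlt k μ := by
  obtain ⟨a, b, h⟩ := pair_exists (d := d)
  refine ⟨a, b, h, fun a' b' h' => pair_unique a' b' a b h' h, ?_⟩
  obtain ⟨S, hS⟩ : ∃ S : Finset (Fin d), S.card = 9 := by
    obtain ⟨S, _, hS⟩ := Finset.exists_subset_card_eq
      (s := (Finset.univ : Finset (Fin d))) (n := 9) (by simpa using hd)
    exact ⟨S, hS⟩
  have hSne : S ≠ ∅ := by rintro rfl; simp at hS
  refine ⟨Pool.Agent.V114.Sqf.ind S, prediction a b h S hS, ?_⟩
  have := lower (k := k) S hSne
  rw [hS] at this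
  have h9 : Nat.factorial 9 = 362880 := by decide
  rwa [h9] at this

end Pool.Agent.Results.MP_9e3efc_al.CharacterFormulaFails
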